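import Mathlib

namespace Pool.Agent.Lib.MP_975cd4_lc

open Finset

theorem sum_fiber (n m : ℕ) (u : ℕ → ℕ) (hu : ∀ i < m, u i < n) (y : ℕ → ℝ) :
    ∑ v ∈ range n, ∑ i ∈ range m, (if u i = v then y i else 0) = ∑ i ∈ range m, y i := by
  rw [sum_comm]
  refine sum_congr rfl fun i hi => ?_
  rw [sum_ite_eq, if_pos (mem_range.2 (hu i (mem_range.1 hi)))]

theorem core_sound (n m k : ℕ) (u w : ℕ → ℕ) (hu : ∀ i < m, u i < n) (hw : ∀ i < m, w i < n)
    (x0 x1 yp y1 y2 p : ℕ → ℝ) (h0 : ∀ v < n, 0 ≤ x0 v) (h1 : ∀ v < n, 0 ≤ x1 v)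
    (hp : ∀ v < n, 0 ≤ yp v) (hy1 : ∀ i < m, 0 ≤ y1 i) (hy2 : ∀ i < m, 0 ≤ y2 i)
    (cons : ∀ v < n, x0 v + x1 v = yp v + ∑ i ∈ range m, (if u i = v then y1 i else 0) +
      ∑ i ∈ range m, (if w i = v then y2 i else 0))
    (blend : ∀ v < n, x1 v = p v * (x0 v + x1 v))
    (capp : ∀ v < n, yp v ≤ 1) (cape : ∀ i < m, y1 i + y2 i ≤ 1)
    (qual : ∀ i < m, p (u i) * y1 i + p (w i) * y2 i ≤ 0)
    (cost : ∑ v ∈ range n, x0 v - ∑ v ∈ range n, yp v - 2 * ∑ i ∈ range m, y1 i -
      2 * ∑ i ∈ range m, y2 i ≤ -(m + k)) :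
    ∃ S : Finset ℕ, (∀ a ∈ S, a < n) ∧ (∀ i < m, ¬ (u i ∈ S ∧ w i ∈ S)) ∧ k ≤ S.card := by
  classical
  have s1 : ∀ v, 0 ≤ ∑ i ∈ range m, (if u i = v then y1 i else 0) := fun v =>
    sum_nonneg fun i hi => by split_ifs; exacts [hy1 i (mem_range.1 hi), le_rfl]
  have s2 : ∀ v, 0 ≤ ∑ i ∈ range m, (if w i = v then y2 i else 0) := fun v =>
    sum_nonneg fun i hi => by split_ifs; exacts [hy2 i (mem_range.1 hi), le_rfl]
  have l1 : ∀ i < m, y1 i ≤ x0 (u i) + x1 (u i) := fun i hi => by
    have := single_le_sum (f := fun j => if u j = u i then y1 j else 0) (s := range m)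
      (fun j hj => by split_ifs; exacts [hy1 j (mem_range.1 hj), le_rfl]) (mem_range.2 hi)
    simp only [if_true] at this
    have := cons _ (hu i hi); have := hp _ (hu i hi); have := s2 (u i)
    linarith
  have l2 : ∀ i < m, y2 i ≤ x0 (w i) + x1 (w i) := fun i hi => by
    have := single_le_sum (f := fun j => if w j = w i then y2 j else 0) (s := range m)
      (fun j hj => by split_ifs; exacts [hy2 j (mem_range.1 hj), le_rfl]) (mem_range.2 hi)
    simp only [if_true] at this
    have := cons _ (hw i hi); have := hp _ (hw i hi); have := s1 (w i)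
    linarith
  have pn : ∀ v < n, ∀ y, 0 ≤ y → y ≤ x0 v + x1 v → 0 ≤ p v * y := fun v hv y hy hy' => by
    rcases hy.eq_or_lt with rfl | hy0
    · simp
    · have := blend v hv
      have := h1 v hv
      have : 0 ≤ p v := by
        by_contra hn
        push Not at hn
        nlinarith
      positivity
  have pp : ∀ v < n, 0 < x1 v → 0 < p v := fun v hv hx => by
    have := blend v hv
    have := h0 v hv
    by_contra hn
    push Not at hn
    nlinarith
  have z1 : ∀ i < m, 0 < x1 (u i) → y1 i = 0 := fun i hi hx => by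
    have a1 := pn _ (hw i hi) _ (hy2 i hi) (l2 i hi)
    have a2 := pp _ (hu i hi) hx
    have a3 := qual i hi
    have a4 := hy1 i hi
    nlinarith
  have z2 : ∀ i < m, 0 < x1 (w i) → y2 i = 0 := fun i hi hx => by
    have a1 := pn _ (hu i hi) _ (hy1 i hi) (l1 i hi)
    have a2 := pp _ (hw i hi) hx
    have a3 := qual i hi
    have a4 := hy2 i hi
    nlinarith
  set D := (range n).filter (fun v => 0 < x1 v) with hD
  set bad := (range m).filter (fun i => u i ∈ D ∧ w i ∈ D) with hbad
  have e1 : ∑ v ∈ range n, x1 v ≤ D.card := by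
    rw [hD, card_filter, Nat.cast_sum]
    refine sum_le_sum fun v hv => ?_
    have hv := mem_range.1 hv
    split_ifs with h
    · have a1 : ∑ i ∈ range m, (if u i = v then y1 i else 0) = 0 :=
        sum_eq_zero fun i hi => by
          split_ifs with e
          · exact z1 i (mem_range.1 hi) (e ▸ h)
          · rfl
      have a2 : ∑ i ∈ range m, (if w i = v then y2 i else 0) = 0 :=
        sum_eq_zero fun i hi => by
          split_ifs with e
          · exact z2 i (mem_range.1 hi) (e ▸ h)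
          · rfl
      have := cons v hv; have := h0 v hv; have := capp v hv
      push_cast
      linarith
    · push_cast
      linarith [not_lt.1 h]
  have e2 : ∑ i ∈ range m, y1 i + ∑ i ∈ range m, y2 i + bad.card ≤ m := by
    rw [hbad, card_filter, Nat.cast_sum, ← sum_add_distrib, ← sum_add_distrib]
    refine (sum_le_sum (g := fun _ => (1 : ℝ)) fun i hi => ?_).trans (by simp)
    have hi := mem_range.1 hi
    split_ifs with h
    · rw [z1 i hi (mem_filter.1 h.1).2, z2 i hi (mem_filter.1 h.2).2]; simp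
    · simpa using cape i hi
  have e3 : ∑ v ∈ range n, x0 v + ∑ v ∈ range n, x1 v =
      ∑ v ∈ range n, yp v + ∑ i ∈ range m, y1 i + ∑ i ∈ range m, y2 i := by
    rw [← sum_add_distrib, ← sum_fiber n m u hu y1, ← sum_fiber n m w hw y2, ← sum_add_distrib,
      ← sum_add_distrib]
    exact sum_congr rfl fun v hv => cons v (mem_range.1 hv)
  have e4 : k + bad.card ≤ D.card := by
    have : (k : ℝ) + bad.card ≤ D.card := by linarith
    exact_mod_cast this
  refine ⟨D \ bad.image u, fun a ha => mem_range.1 (mem_filter.1 (mem_sdiff.1 ha).1).1, ?_, ?_⟩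
  · rintro i hi ⟨a1, a2⟩
    exact (mem_sdiff.1 a1).2 (mem_image_of_mem u
      (mem_filter.2 ⟨mem_range.2 hi, (mem_sdiff.1 a1).1, (mem_sdiff.1 a2).1⟩))
  · have := le_card_sdiff (bad.image u) D
    have := card_image_le (s := bad) (f := u)
    omega

end Pool.Agent.Lib.MP_975cd4_lc
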