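import Pool.Prelude.Def_H_3587d628

namespace Pool.Agent.Lib.MP_975cd4_lc

/-- an arc: tail, head, cost, capacity -/
abbrev Arc : Type := ℕ × ℕ × ℚ × ℚ

/-- an instance with one quality: inputs (capacity, quality value), pools (capacity),
outputs (capacity, quality bound), arcs from inputs to pools, arcs from pools to outputs -/
abbrev Inst : Type := List (ℚ × ℚ) × List ℚ × List (ℚ × ℚ) × List Arc × List Arc

/-- no parallel arcs, endpoints exist, every pool and every output has in-degree at most two -/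
def Restricted : Inst → Prop
  | (I, L, J, A, B) =>
    (A.map fun a => (a.1, a.2.1)).Nodup ∧ (B.map fun b => (b.1, b.2.1)).Nodup ∧
    (∀ a ∈ A, a.1 < I.length ∧ a.2.1 < L.length) ∧
    (∀ b ∈ B, b.1 < L.length ∧ b.2.1 < J.length) ∧
    (∀ l, A.countP (fun a => a.2.1 = l) ≤ 2) ∧ (∀ j, B.countP (fun b => b.2.1 = j) ≤ 2)

/-- all numbers are integers of absolute value at most the number of vertices -/
def Small : Inst × ℚ → Prop
  | ((I, L, J, A, B), ζ) =>
    ∀ q ∈ ζ :: (L ++ (I ++ J ++ (A ++ B).map fun a => a.2.2).flatMap fun r => [r.1, r.2]),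
      q.den = 1 ∧ |q| ≤ I.length + L.length + J.length

/-- there is a feasible solution of cost at most `ζ` -/
def Yes : Inst × ℚ → Prop
  | ((I, L, J, A, B), ζ) =>
    ∃ (x y : Arc → ℝ) (p : ℕ → ℝ),
      (∀ a ∈ A, 0 ≤ x a ∧ x a ≤ a.2.2.2) ∧ (∀ b ∈ B, 0 ≤ y b ∧ y b ≤ b.2.2.2) ∧
      (∀ i < I.length, ∑ a ∈ A.toFinset with a.1 = i, x a ≤ (I.getD i 0).1) ∧
      (∀ l < L.length,
        ∑ a ∈ A.toFinset with a.2.1 = l, x a = ∑ b ∈ B.toFinset with b.1 = l, y b ∧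
        ∑ a ∈ A.toFinset with a.2.1 = l, x a ≤ L.getD l 0 ∧
        ∑ a ∈ A.toFinset with a.2.1 = l, (I.getD a.1 0).2 * x a =
          p l * ∑ b ∈ B.toFinset with b.1 = l, y b) ∧
      (∀ j < J.length,
        ∑ b ∈ B.toFinset with b.2.1 = j, y b ≤ (J.getD j 0).1 ∧
        ∑ b ∈ B.toFinset with b.2.1 = j, p b.1 * y b ≤
          (J.getD j 0).2 * ∑ b ∈ B.toFinset with b.2.1 = j, y b) ∧
      ∑ a ∈ A.toFinset, a.2.2.1 * x a + ∑ b ∈ B.toFinset, b.2.2.1 * y b ≤ ζ

end Pool.Agent.Lib.MP_975cd4_lc
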