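import Pool.Agent.Lib.MP_975cd4_lc.Defs
import Pool.Agent.Lib.MP_975cd4_lc.Core
import Pool.Agent.Lib.Complexity.CookLevin

namespace Pool.Agent.Lib.MP_975cd4_lc

open Finset Pool.Agent.Lib.Complexity N487b59b3 N68a2faeb

/-- writing objects in the bit encoding of the Prelude -/
class Out (α : Type) [N487b59b3 α] (α' : outParam Type) [Enc α'] where
  down : α' → α
  pt : PT fun a : α' => bitEncode (down a)

instance : Out ℕ ℕ where
  down n := n
  pt := PT.of_eq (PTB.of_unary PT.id) fun _ => (encodeNat_eq _).symm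

instance : Out ℚ ℤ where
  down z := z
  pt := ((Rep.enc_pt (α := ℤ × ℕ)).comp (f := fun z : ℤ => (z, (1 : ℤ))) (by fun_prop)).of_eq
    fun z => by
      change bitEncode ((z, 1) : ℤ × ℕ) = bitEncode (((z : ℚ).num, (z : ℚ).den) : ℤ × ℕ)
      simp

instance {α β α' β' : Type} [N487b59b3 α] [N487b59b3 β] [Enc α'] [Enc β'] [Out α α'] [Out β β'] :
    Out (α × β) (α' × β') where
  down p := (Out.down p.1, Out.down p.2)
  pt := PT.append (PT.delimit ((Out.pt (α := α)).comp (PT.fst PT.id)))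
    ((Out.pt (α := β)).comp (PT.snd PT.id))

instance {α α' : Type} [N487b59b3 α] [Enc α'] [Out α α'] : Out (List α) (List α') where
  down l := l.map Out.down
  pt := by
    have h1 := Out.pt (α := α)
    have : PT fun l : List α' => l.flatMap fun a => delimit (bitEncode (Out.down a : α)) :=
      PT.flatMap PT.id (PT.delimit (h1.comp (PT.snd PT.id)))
    refine this.of_eq fun l => ?_
    change _ = (((l.map Out.down).map bitEncode).map delimit).flatten
    simp [List.flatMap_def, Function.comp_def]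

theorem isPolyTime_out {β β' : Type} [N487b59b3 β] [Enc β'] [Out β β'] {g : Str → β'}
    (hg : PT g) : IsPolyTime (fun x => (Out.down (g x) : β)) := by
  have h1 : PT fun l : Str => ((bitDecode l : Option Str).map Rep.up).elim []
      fun a => bitEncode (Out.down (g a) : β) :=
    PT.option_elim (Rep.dec_pt (α := Str)) (PT.const _)
      ((Out.pt (α := β)).comp (hg.comp (PT.snd PT.id)))
  exact tm2_of_str h1 fun a => by
    change ((bitDecode (bitEncode a) : Option Str).map Rep.up).elim _ _ = bitEncode _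
    simp only [bitDecode_bitEncode, Option.map_some, Option.elim_some, up_str]

abbrev ZArc : Type := ℕ × ℕ × ℤ × ℤ
abbrev ZInst : Type := List (ℤ × ℤ) × List ℤ × List (ℤ × ℤ) × List ZArc × List ZArc

def eu (E : List (ℕ × ℕ)) (i : ℕ) : ℕ := (E.getD i (0, 0)).1
def ew (E : List (ℕ × ℕ)) (i : ℕ) : ℕ := (E.getD i (0, 0)).2

def zinst (n : ℕ) (E : List (ℕ × ℕ)) (k : ℕ) : ZInst × ℤ :=
  (([(((n + E.length : ℕ) : ℤ), 0), (((n + E.length : ℕ) : ℤ), 1)],
    List.replicate n ((n + E.length : ℕ) : ℤ),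
    List.replicate n (1, 1) ++ List.replicate E.length (1, 0),
    (List.range n).map (fun v => (0, v, 1, ((n + E.length : ℕ) : ℤ))) ++
      (List.range n).map (fun v => (1, v, 0, ((n + E.length : ℕ) : ℤ))),
    (List.range n).map (fun v => (v, v, -1, ((n + E.length : ℕ) : ℤ))) ++
      ((List.range E.length).map (fun i => (eu E i, n + i, -2, ((n + E.length : ℕ) : ℤ))) ++
      (List.range E.length).map (fun i => (ew E i, n + i, -2, ((n + E.length : ℕ) : ℤ))))),
    -((E.length + min k (n + 1) : ℕ) : ℤ))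

theorem pt_zinst : PT (fun x : (ℕ × List (ℕ × ℕ)) × ℕ => zinst x.1.1 x.1.2 x.2) := by
  unfold zinst eu ew
  fun_prop

def qA (n : ℕ) (N : ℚ) : List Arc :=
  (List.range n).map (fun v => (0, v, 1, N)) ++ (List.range n).map (fun v => (1, v, 0, N))

def qB (n m : ℕ) (u w : ℕ → ℕ) (N : ℚ) : List Arc :=
  (List.range n).map (fun v => (v, v, -1, N)) ++
    ((List.range m).map (fun i => (u i, n + i, -2, N)) ++
    (List.range m).map (fun i => (w i, n + i, -2, N)))

def qinst (n m : ℕ) (u w : ℕ → ℕ) (k : ℕ) : Inst × ℚ :=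
  (([(((n + m : ℕ) : ℚ), 0), (((n + m : ℕ) : ℚ), 1)], List.replicate n ((n + m : ℕ) : ℚ),
    List.replicate n (1, 1) ++ List.replicate m (1, 0), qA n (n + m : ℕ), qB n m u w (n + m : ℕ)),
    -((m + k : ℕ) : ℚ))

theorem down_zinst (n : ℕ) (E : List (ℕ × ℕ)) (k : ℕ) :
    (Out.down (zinst n E k) : Inst × ℚ) = qinst n E.length (eu E) (ew E) (min k (n + 1)) := by
  simp [zinst, qinst, qA, qB, Out.down, Function.comp_def]

theorem nodupA (n : ℕ) (N : ℚ) : ((qA n N).map fun a => (a.1, a.2.1)).Nodup := by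
  simp only [qA, List.map_append, List.map_map, Function.comp_def]
  refine List.Nodup.append (List.nodup_range.map fun a b h => by simpa using h)
    (List.nodup_range.map fun a b h => by simpa using h) ?_
  simp [List.disjoint_left]

theorem nodupB (n m : ℕ) (u w : ℕ → ℕ) (N : ℚ) (huw : ∀ i < m, u i ≠ w i) :
    ((qB n m u w N).map fun a => (a.1, a.2.1)).Nodup := by
  simp only [qB, List.map_append, List.map_map, Function.comp_def]
  refine List.Nodup.append (List.nodup_range.map fun a b h => by simpa using h)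
    (List.Nodup.append (List.nodup_range.map fun a b h => by simp at h; exact h.2)
      (List.nodup_range.map fun a b h => by simp at h; exact h.2) ?_) ?_
  · simp only [List.disjoint_left, List.mem_map, List.mem_range, not_exists, not_and]
    rintro _ ⟨i, hi, rfl⟩ j _ h
    simp only [Prod.mk.injEq, add_right_inj] at h
    exact huw i hi (by rw [← h.1, h.2])
  · simp only [List.disjoint_left, List.mem_map, List.mem_range, List.mem_append, not_or,
      not_exists, not_and]
    rintro _ ⟨i, hi, rfl⟩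
    constructor <;> intro j _ h <;> simp only [Prod.mk.injEq] at h <;> omega

theorem sum_list_range (n : ℕ) (f : ℕ → ℝ) : ((List.range n).map f).sum = ∑ i ∈ range n, f i := rfl

theorem sumA (n : ℕ) (N : ℚ) (f : Arc → ℝ) :
    ∑ a ∈ (qA n N).toFinset, f a = ∑ v ∈ range n, f (0, v, 1, N) + ∑ v ∈ range n, f (1, v, 0, N) := by
  rw [List.sum_toFinset _ (nodupA n N).of_map]
  simp only [qA, List.map_append, List.map_map, List.sum_append, sum_list_range, Function.comp_def]

theorem sumB (n m : ℕ) (u w : ℕ → ℕ) (N : ℚ) (huw : ∀ i < m, u i ≠ w i) (f : Arc → ℝ) :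
    ∑ a ∈ (qB n m u w N).toFinset, f a = ∑ v ∈ range n, f (v, v, -1, N) +
      ∑ i ∈ range m, f (u i, n + i, -2, N) + ∑ i ∈ range m, f (w i, n + i, -2, N) := by
  rw [List.sum_toFinset _ (nodupB n m u w N huw).of_map]
  simp only [qB, List.map_append, List.map_map, List.sum_append, sum_list_range, Function.comp_def,
    add_assoc]

theorem sumA_head (n : ℕ) (N : ℚ) (f : Arc → ℝ) {l : ℕ} (hl : l < n) :
    ∑ a ∈ (qA n N).toFinset with a.2.1 = l, f a = f (0, l, 1, N) + f (1, l, 0, N) := by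
  rw [sum_filter, sumA]
  simp [hl]

theorem sumB_tail (n m : ℕ) (u w : ℕ → ℕ) (N : ℚ) (huw : ∀ i < m, u i ≠ w i) (f : Arc → ℝ)
    {l : ℕ} (hl : l < n) :
    ∑ b ∈ (qB n m u w N).toFinset with b.1 = l, f b = f (l, l, -1, N) +
      ∑ i ∈ range m, (if u i = l then f (u i, n + i, -2, N) else 0) +
      ∑ i ∈ range m, (if w i = l then f (w i, n + i, -2, N) else 0) := by
  rw [sum_filter, sumB _ _ _ _ _ huw]
  simp [hl]

theorem sumB_priv (n m : ℕ) (u w : ℕ → ℕ) (N : ℚ) (huw : ∀ i < m, u i ≠ w i) (f : Arc → ℝ)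
    {j : ℕ} (hj : j < n) :
    ∑ b ∈ (qB n m u w N).toFinset with b.2.1 = j, f b = f (j, j, -1, N) := by
  rw [sum_filter, sumB _ _ _ _ _ huw]
  have : ∀ i, ¬ n + i = j := fun i => by omega
  simp [hj, this]

theorem sumB_edge (n m : ℕ) (u w : ℕ → ℕ) (N : ℚ) (huw : ∀ i < m, u i ≠ w i) (f : Arc → ℝ)
    {i : ℕ} (hi : i < m) :
    ∑ b ∈ (qB n m u w N).toFinset with b.2.1 = n + i, f b =
      f (u i, n + i, -2, N) + f (w i, n + i, -2, N) := by
  rw [sum_filter, sumB _ _ _ _ _ huw]
  simp [hi]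

theorem getD_priv (n m : ℕ) {j : ℕ} (hj : j < n) :
    (List.replicate n ((1 : ℚ), (1 : ℚ)) ++ List.replicate m (1, 0)).getD j 0 = (1, 1) := by
  simp [List.getElem?_append_left, hj]

theorem getD_edge (n m : ℕ) {i : ℕ} (hi : i < m) :
    (List.replicate n ((1 : ℚ), (1 : ℚ)) ++ List.replicate m (1, 0)).getD (n + i) 0 = (1, 0) := by
  simp [hi]

theorem yes_sound (n m k : ℕ) (u w : ℕ → ℕ) (hu : ∀ i < m, u i < n) (hw : ∀ i < m, w i < n)
    (huw : ∀ i < m, u i ≠ w i) (h : Yes (qinst n m u w k)) :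
    ∃ S : Finset ℕ, (∀ a ∈ S, a < n) ∧ (∀ i < m, ¬ (u i ∈ S ∧ w i ∈ S)) ∧ k ≤ S.card := by
  unfold qinst Yes at h
  obtain ⟨x, y, p, hx, hy, -, hL, hJ, hc⟩ := h
  set N : ℚ := ((n + m : ℕ) : ℚ) with hN
  simp only [List.length_replicate, List.length_append] at hL hJ
  refine core_sound n m k u w hu hw (fun v => x (0, v, 1, N)) (fun v => x (1, v, 0, N))
    (fun v => y (v, v, -1, N)) (fun i => y (u i, n + i, -2, N)) (fun i => y (w i, n + i, -2, N)) p
    (fun v hv => (hx _ (by simp [qA, hv])).1) (fun v hv => (hx _ (by simp [qA, hv])).1)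
    (fun v hv => (hy _ (by simp [qB, hv])).1) (fun i hi => (hy _ ?_).1) (fun i hi => (hy _ ?_).1)
    (fun v hv => ?_) (fun v hv => ?_) (fun v hv => ?_) (fun i hi => ?_) (fun i hi => ?_) ?_
  · simp only [qB, List.mem_append, List.mem_map, List.mem_range]
    exact Or.inr (Or.inl ⟨i, hi, rfl⟩)
  · simp only [qB, List.mem_append, List.mem_map, List.mem_range]
    exact Or.inr (Or.inr ⟨i, hi, rfl⟩)
  · have := (hL v hv).1
    rwa [sumA_head _ _ _ hv, sumB_tail _ _ _ _ _ huw _ hv] at this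
  · have h1 := (hL v hv).1
    have h2 := (hL v hv).2.2
    rw [← h1, sumA_head _ _ _ hv, sumA_head _ _ _ hv] at h2
    simpa using h2
  · have := (hJ v (by omega)).1
    rw [sumB_priv _ _ _ _ _ huw _ hv, getD_priv _ _ hv] at this
    simpa using this
  · have := (hJ (n + i) (by omega)).1
    rw [sumB_edge _ _ _ _ _ huw _ hi, getD_edge _ _ hi] at this
    simpa using this
  · have := (hJ (n + i) (by omega)).2
    rw [sumB_edge _ _ _ _ _ huw _ hi, getD_edge _ _ hi] at this
    simpa using this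
  · rw [sumA, sumB _ _ _ _ _ huw] at hc
    simp only [mul_sum]
    simp only [Rat.cast_one, one_mul, Rat.cast_zero, zero_mul, sum_const_zero, add_zero,
      Rat.cast_neg, neg_mul, sum_neg_distrib, Rat.cast_ofNat, Rat.cast_natCast, Nat.cast_add,
      Rat.cast_add] at hc
    linarith

theorem yes_complete (n m k : ℕ) (u w : ℕ → ℕ) (hu : ∀ i < m, u i < n) (hw : ∀ i < m, w i < n)
    (huw : ∀ i < m, u i ≠ w i) (S : Finset ℕ) (hS : ∀ a ∈ S, a < n)
    (hI : ∀ i < m, ¬ (u i ∈ S ∧ w i ∈ S)) (hk : k ≤ S.card) : Yes (qinst n m u w k) := by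
  classical
  set N : ℚ := ((n + m : ℕ) : ℚ) with hN
  have hNR : ((N : ℚ) : ℝ) = n + m := by simp [hN]
  let ind : ℕ → ℝ := fun v => if v ∈ S then 1 else 0
  have i0 : ∀ v, 0 ≤ ind v := fun v => by simp only [ind]; split_ifs <;> norm_num
  have i1 : ∀ v, ind v ≤ 1 := fun v => by simp only [ind]; split_ifs <;> norm_num
  let x0 : ℕ → ℝ := fun v => ∑ i ∈ range m, (if u i = v then 1 - ind (u i) else 0) +
    ∑ i ∈ range m, (if w i = v then ind (u i) else 0)
  have x0n : ∀ v, 0 ≤ x0 v := fun v => add_nonneg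
    (sum_nonneg fun i _ => by split_ifs; exacts [by linarith [i1 (u i)], le_rfl])
    (sum_nonneg fun i _ => by split_ifs; exacts [i0 _, le_rfl])
  have x0s : ∑ v ∈ range n, x0 v = m := by
    simp only [x0]
    rw [sum_add_distrib, sum_fiber n m u hu, sum_fiber n m w hw, ← sum_add_distrib]
    simp
  have x0m : ∀ v < n, x0 v ≤ m := fun v hv => by
    rw [← x0s]
    exact single_le_sum (fun v _ => x0n v) (mem_range.2 hv)
  have x0S : ∀ v ∈ S, x0 v = 0 := fun v hv => by
    simp only [x0]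
    rw [sum_eq_zero, sum_eq_zero, add_zero]
    · intro i hi
      split_ifs with e
      · have := hI i (mem_range.1 hi)
        simp only [ind]
        rw [if_neg (fun h => this ⟨h, e ▸ hv⟩)]
      · rfl
    · intro i _
      split_ifs with e
      · simp [ind, e, hv]
      · rfl
  have inds : ∑ v ∈ range n, ind v = S.card := by
    simp only [ind]
    rw [← sum_filter, filter_mem_eq_inter, inter_eq_right.2 (fun a ha => mem_range.2 (hS a ha))]
    simp
  have cn : (S.card : ℝ) ≤ n := by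
    have := card_le_card (show S ⊆ range n from fun a ha => mem_range.2 (hS a ha))
    rw [card_range] at this
    exact_mod_cast this
  let x : Arc → ℝ := fun a => if a.1 = 0 then x0 a.2.1 else ind a.2.1
  let y : Arc → ℝ := fun b => if b.2.1 < n then ind b.1 else
    if b.1 = u (b.2.1 - n) then 1 - ind (u (b.2.1 - n)) else ind (u (b.2.1 - n))
  have yp : ∀ v < n, y (v, v, -1, N) = ind v := fun v hv => by simp [y, hv]
  have yu : ∀ i, y (u i, n + i, -2, N) = 1 - ind (u i) := fun i => by simp [y]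
  have yw : ∀ i < m, y (w i, n + i, -2, N) = ind (u i) := fun i hi => by
    simp [y, (huw i hi).symm]
  have out : ∀ l < n, ∑ b ∈ (qB n m u w N).toFinset with b.1 = l, y b = x0 l + ind l := by
    intro l hl
    rw [sumB_tail _ _ _ _ _ huw _ hl, yp l hl]
    simp only [yu, x0]
    rw [sum_congr rfl (f := fun i => if w i = l then y (w i, n + i, -2, N) else 0)
      (g := fun i => if w i = l then ind (u i) else 0)
      (fun i hi => by rw [yw i (mem_range.1 hi)])]
    ring
  have hm : (0 : ℝ) ≤ m := Nat.cast_nonneg _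
  have hn : (0 : ℝ) ≤ n := Nat.cast_nonneg _
  unfold qinst Yes
  refine ⟨x, y, ind, ?_, ?_, ?_, ?_, ?_, ?_⟩
  · intro a ha
    simp only [qA, List.mem_append, List.mem_map, List.mem_range] at ha
    rcases ha with ⟨v, hv, rfl⟩ | ⟨v, hv, rfl⟩
    · simp only [x, if_true, ← hN, hNR]
      exact ⟨x0n v, by linarith [x0m v hv]⟩
    · have : (1 : ℝ) ≤ n := by exact_mod_cast (show 1 ≤ n by omega)
      simp only [x, one_ne_zero, if_false, ← hN, hNR]
      exact ⟨i0 v, by linarith [i1 v]⟩
  · intro b hb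
    simp only [qB, List.mem_append, List.mem_map, List.mem_range] at hb
    rcases hb with ⟨v, hv, rfl⟩ | ⟨i, hi, rfl⟩ | ⟨i, hi, rfl⟩
    · have : (1 : ℝ) ≤ n := by exact_mod_cast (show 1 ≤ n by omega)
      rw [← hN, yp v hv, hNR]
      exact ⟨i0 v, by linarith [i1 v]⟩
    · have : (1 : ℝ) ≤ m := by exact_mod_cast (show 1 ≤ m by omega)
      rw [← hN, yu, hNR]
      exact ⟨by linarith [i1 (u i)], by linarith [i0 (u i)]⟩
    · have : (1 : ℝ) ≤ m := by exact_mod_cast (show 1 ≤ m by omega)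
      rw [← hN, yw i hi, hNR]
      exact ⟨i0 _, by linarith [i1 (u i)]⟩
  · intro i hi
    rw [← hN, sum_filter, sumA]
    have : i = 0 ∨ i = 1 := by simp at hi; omega
    rcases this with rfl | rfl
    · simp [x, x0s, hNR]
    · simp [x, inds, hNR]; linarith
  · intro l hl
    simp only [List.length_replicate] at hl
    rw [← hN, out l hl, sumA_head _ _ _ hl, sumA_head _ _ _ hl]
    have : (1 : ℝ) ≤ n := by exact_mod_cast (show 1 ≤ n by omega)
    refine ⟨by simp [x], ?_, ?_⟩
    · simp [x, hl, hNR]; linarith [x0m l hl, i1 l]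
    · by_cases e : l ∈ S
      · simp [x, ind, e, x0S l e]
      · simp [x, ind, e]
  · intro j hj
    simp only [List.length_append, List.length_replicate] at hj
    rw [← hN]
    by_cases hjn : j < n
    · rw [sumB_priv _ _ _ _ _ huw _ hjn, sumB_priv _ _ _ _ _ huw _ hjn, getD_priv _ _ hjn, yp j hjn]
      refine ⟨by simpa using i1 j, ?_⟩
      simp only [Rat.cast_one]
      exact mul_le_mul_of_nonneg_right (i1 j) (i0 j)
    · obtain ⟨i, rfl⟩ := Nat.exists_eq_add_of_le (not_lt.1 hjn)
      have hi : i < m := by omega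
      rw [sumB_edge _ _ _ _ _ huw _ hi, sumB_edge _ _ _ _ _ huw _ hi, getD_edge _ _ hi, yu, yw i hi]
      refine ⟨by simp, ?_⟩
      have := hI i hi
      by_cases e1 : u i ∈ S <;> by_cases e2 : w i ∈ S <;> simp_all [ind]
  · rw [← hN, sumA, sumB _ _ _ _ _ huw]
    rw [sum_congr rfl (s₂ := range n) (f := fun v => (((-1 : ℚ) : ℝ)) * y (v, v, -1, N))
      (g := fun v => - ind v) (fun v hv => by rw [yp v (mem_range.1 hv)]; simp)]
    rw [sum_congr rfl (s₂ := range m) (f := fun i => (((-2 : ℚ) : ℝ)) * y (w i, n + i, -2, N))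
      (g := fun i => -2 * ind (u i)) (fun i hi => by rw [yw i (mem_range.1 hi)]; simp)]
    have hk' : (k : ℝ) ≤ S.card := by exact_mod_cast hk
    simp only [yu, x, if_true, Rat.cast_one, one_mul, Rat.cast_zero, zero_mul, sum_const_zero,
      x0s, sum_neg_distrib, inds, Rat.cast_neg, Rat.cast_ofNat, ← mul_sum, sum_sub_distrib,
      sum_const, card_range, nsmul_eq_mul, mul_one, Rat.cast_natCast, Nat.cast_add, Rat.cast_add]
    linarith

theorem countP_range_le (n c j : ℕ) : (List.range n).countP (fun i => decide (c + i = j)) ≤ 1 := by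
  rw [List.countP_eq_length_filter, ← List.toFinset_card_of_nodup (List.nodup_range.filter _),
    card_le_one]
  intro a ha b hb
  simp only [List.mem_toFinset, List.mem_filter, decide_eq_true_eq] at ha hb
  omega

theorem restricted_qinst (n m k : ℕ) (u w : ℕ → ℕ) (hu : ∀ i < m, u i < n) (hw : ∀ i < m, w i < n)
    (huw : ∀ i < m, u i ≠ w i) : Restricted (qinst n m u w k).1 := by
  unfold qinst Restricted
  refine ⟨nodupA _ _, nodupB _ _ _ _ _ huw, ?_, ?_, fun l => ?_, fun j => ?_⟩
  · intro a ha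
    simp only [qA, List.mem_append, List.mem_map, List.mem_range] at ha
    rcases ha with ⟨v, hv, rfl⟩ | ⟨v, hv, rfl⟩ <;> simp [hv]
  · intro b hb
    simp only [qB, List.mem_append, List.mem_map, List.mem_range] at hb
    rcases hb with ⟨v, hv, rfl⟩ | ⟨i, hi, rfl⟩ | ⟨i, hi, rfl⟩
    · simp [hv]; omega
    · simp [hi, hu i hi]
    · simp [hi, hw i hi]
  · have := countP_range_le n 0 l
    simp only [qA, List.countP_append, List.countP_map, Function.comp_def, zero_add] at this ⊢
    omega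
  · have h1 := countP_range_le n 0 j
    have h2 := countP_range_le m n j
    simp only [qB, List.countP_append, List.countP_map, Function.comp_def, zero_add] at h1 ⊢
    by_cases hj : j < n
    · have : (List.range m).countP (fun i => decide (n + i = j)) = 0 := by
        rw [List.countP_eq_zero]; intro a _; simp; omega
      omega
    · have : (List.range n).countP (fun i => decide (i = j)) = 0 := by
        rw [List.countP_eq_zero]; intro a ha; simp at ha ⊢; omega
      omega

theorem small_qinst (n m k : ℕ) (u w : ℕ → ℕ) (hk : k ≤ n + 1) : Small (qinst n m u w k) := by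
  have hm : (0 : ℚ) ≤ m := Nat.cast_nonneg _
  have hn : (0 : ℚ) ≤ n := Nat.cast_nonneg _
  have hk0 : (0 : ℚ) ≤ k := Nat.cast_nonneg _
  have hk' : (k : ℚ) ≤ n + 1 := by exact_mod_cast hk
  have key : ∀ q : ℚ, (q = -((m + k : ℕ) : ℚ) ∨ q = ((n + m : ℕ) : ℚ) ∨ q = 0 ∨ q = 1 ∨ q = -1 ∨
      q = -2) → q.den = 1 ∧ |q| ≤ 2 + n + (n + m) := by
    rintro q (rfl | rfl | rfl | rfl | rfl | rfl)
    · exact ⟨by rw [Rat.den_neg_eq_den, Rat.den_natCast], by
        rw [abs_neg, abs_of_nonneg (Nat.cast_nonneg _)]; push_cast; linarith⟩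
    · exact ⟨Rat.den_natCast _, by rw [abs_of_nonneg (Nat.cast_nonneg _)]; push_cast; linarith⟩
    all_goals exact ⟨rfl, by norm_num; linarith⟩
  unfold qinst Small
  intro q hq
  have := key q (by
    simp only [qA, qB, List.mem_cons, List.mem_append, List.mem_replicate, List.mem_flatMap,
      List.mem_map, List.mem_range, List.not_mem_nil, or_false] at hq
    rcases hq with rfl | ⟨_, rfl⟩ | ⟨r, ((rfl | rfl) | ⟨_, rfl⟩ | ⟨_, rfl⟩) |
      ⟨_, (⟨_, _, rfl⟩ | ⟨_, _, rfl⟩) | ⟨_, _, rfl⟩ | ⟨_, _, rfl⟩ | ⟨_, _, rfl⟩, rfl⟩,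
      rfl | rfl⟩ <;> simp)
  simpa using this

theorem main : ∀ L ∈ NP, ∃ g : List Bool → Inst × ℚ, IsPolyTime g ∧ ∀ x,
    Restricted (g x).1 ∧ (g x).1.1.length = 2 ∧ Small (g x) ∧ (L x = true ↔ Yes (g x)) := by
  intro L hL
  obtain ⟨g, hg, e⟩ := hard_indep L hL
  have h1 : PT (fun x => zinst (g x).1.1.1 (g x).1.1.2 (g x).2) :=
    pt_zinst.comp (f := fun x => ((g x).1.1, (g x).2)) (by fun_prop)
  refine ⟨_, isPolyTime_out h1, fun x => ?_⟩
  rw [e, down_zinst]
  obtain ⟨⟨⟨n, E⟩, -, hE⟩, k⟩ := g x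
  have hm : ∀ i < E.length, (eu E i, ew E i) ∈ E := fun i hi => by simp [eu, ew, hi]
  have hu : ∀ i < E.length, eu E i < n := fun i hi => (hE _ (hm i hi)).1.trans (hE _ (hm i hi)).2
  have hw : ∀ i < E.length, ew E i < n := fun i hi => (hE _ (hm i hi)).2
  have huw : ∀ i < E.length, eu E i ≠ ew E i := fun i hi => (hE _ (hm i hi)).1.ne
  refine ⟨restricted_qinst _ _ _ _ _ hu hw huw, rfl, small_qinst _ _ _ _ _ (min_le_right _ _),
    ⟨?_, fun h => ?_⟩⟩
  · rintro ⟨S, ⟨h1, h2⟩, h3⟩
    exact yes_complete _ _ _ _ _ hu hw huw S h1 (fun i hi => h2 _ (hm i hi))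
      ((min_le_left _ _).trans h3)
  · obtain ⟨S, h1, h2, h3⟩ := yes_sound _ _ _ _ _ hu hw huw h
    refine ⟨S, ⟨h1, fun e he => ?_⟩, ?_⟩
    · obtain ⟨i, hi, rfl⟩ := List.getElem_of_mem he
      simpa [eu, ew, hi] using h2 i hi
    · have := card_le_card (show S ⊆ range n from fun a ha => mem_range.2 (h1 a ha))
      rw [card_range] at this
      change min k (n + 1) ≤ _ at h3
      change k ≤ _
      omega

end Pool.Agent.Lib.MP_975cd4_lc
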